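import Pool.Agent.Work.MP_64ea0f_cs.InterfaceA

set_option autoImplicit false

namespace Pool.CS

/-- FPR: finite parabolic subgroups have finitely many roots. -/
theorem fpr_thm : Stmt_PAR → Stmt_INFO → Stmt_FPR := by
  intro hPAR hINFO D J hfin
  obtain ⟨-, hrep, -, hrf, -, -⟩ := hPAR D J
  constructor
  · apply (Set.finite_range
      (fun p : (D.par J) × D.S => D.ρ (p.1 : D.W) (D.e p.2))).subset
    rintro φ ⟨hφ, hJ⟩
    obtain ⟨w, hw, s, -, rfl⟩ := hrep φ hφ hJ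
    exact ⟨(⟨w, hw⟩, s), rfl⟩
  · intro φ hφ ψ hψ hJφ hJψ h1 h2
    by_contra hcon
    have hc : 1 ≤ |D.B φ ψ| := not_lt.mp hcon
    have h3 : φ ≠ ψ := fun h => h1 h.symm
    have h4 : φ ≠ -ψ := fun h => h2 (by rw [h, neg_neg])
    have hmem : D.rf φ * D.rf ψ ∈ D.par J :=
      (D.par J).mul_mem (hrf φ hφ hJφ) (hrf ψ hψ hJψ)
    have hfo : IsOfFinOrder (⟨D.rf φ * D.rf ψ, hmem⟩ : D.par J) := isOfFinOrder_of_finite _
    obtain ⟨k, hk, hk1⟩ := isOfFinOrder_iff_pow_eq_one.mp hfo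
    refine hINFO D φ hφ ψ hψ hc h3 h4 k hk ?_
    have := congrArg Subtype.val hk1
    simpa using this

end Pool.CS
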