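import Pool.Agent.Work.MP_64ea0f_cs.InterfaceG4
import Pool.Agent.Work.MP_64ea0f_cs_helper64.F3C
import Pool.Agent.Work.MP_64ea0f_cs_helper91.FAC

set_option autoImplicit false

/-! # F3CY, auxiliary part: the isotropic case (helper79) -/

namespace Pool.CS
namespace F3CYp
open F3Cp

variable (D : Rd)

/-- the support of the sum of two non-orthogonal positive roots is connected -/
theorem conn_supp (hB : Stmt_BAS) (hC : Stmt_CSU) {p q : D.V} (hp : p ∈ D.Ps) (hq : q ∈ D.Ps)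
    (hne : D.B p q ≠ 0) : D.Conn {s | (p + q) s ≠ 0} := by
  intro K' hK' hne' hor
  have hJp : D.In {s | (p + q) s ≠ 0} p := by
    intro s hs
    have h0 : (p + q) s = 0 := by
      by_contra hc
      exact hs hc
    rw [Pi.add_apply] at h0
    have := hp.2 s
    have := hq.2 s
    linarith
  have hJq : D.In {s | (p + q) s ≠ 0} q := by
    intro s hs
    have h0 : (p + q) s = 0 := by
      by_contra hc
      exact hs hc
    rw [Pi.add_apply] at h0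
    have := hp.2 s
    have := hq.2 s
    linarith
  have hun : K' ∪ ({s | (p + q) s ≠ 0} \ K') = {s | (p + q) s ≠ 0} := Set.union_sdiff_cancel hK'
  have h1 := hC D K' _ hor p hp.1 (by rw [hun]; exact hJp)
  have h2 := hC D K' _ hor q hq.1 (by rw [hun]; exact hJq)
  rcases h1 with h1 | h1 <;> rcases h2 with h2 | h2
  · apply Set.Subset.antisymm hK'
    intro s hs
    by_contra hc
    apply hs
    rw [Pi.add_apply, h1 s hc, h2 s hc, add_zero]
  · exact absurd (orth D hor h1 h2) hne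
  · exact absurd (by rw [(hB D).1]; exact orth D hor h2 h1) hne
  · exfalso
    obtain ⟨s, hs⟩ := hne'
    have hs' : s ∉ {s | (p + q) s ≠ 0} \ K' := fun hc => hc.2 hs
    exact hK' hs (by rw [Pi.add_apply, h1 s hs', h2 s hs', add_zero])

/-- `par J` preserves the vectors supported in a union of components of `J` -/
theorem par_pres {J K : Set D.S} (hKo : ∀ s ∈ K, ∀ t ∈ J \ K, D.k s t = 0) {x : D.W}
    (hx : x ∈ D.par J) : ∀ v, D.In K v → D.In K (D.ρ x v) ∧ D.In K (D.ρ x⁻¹ v) := by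
  have hσ : ∀ s ∈ J, ∀ v, D.In K v → D.In K (D.ρ (D.σ s) v) := by
    intro s hs v hv
    by_cases hsK : s ∈ K
    · intro t ht
      rw [H91.ρ_σ, Pi.sub_apply, Pi.smul_apply, H91.e_ne (by rintro rfl; exact ht hsK), hv t ht,
        smul_zero, sub_zero]
    · have h1 : D.B v (D.e s) = 0 := orth D (J1 := K) (J2 := J \ K) hKo hv (by
        intro t ht
        exact H91.e_ne (by rintro rfl; exact ht ⟨hs, hsK⟩))
      rw [H91.ρ_σ, h1, mul_zero, zero_smul, sub_zero]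
      exact hv
  refine Subgroup.closure_induction
    (p := fun x _ => ∀ v, D.In K v → D.In K (D.ρ x v) ∧ D.In K (D.ρ x⁻¹ v)) ?_ ?_ ?_ ?_ hx
  · rintro _ ⟨s, hs, rfl⟩ v hv
    rw [H91.σ_inv]
    exact ⟨hσ s hs v hv, hσ s hs v hv⟩
  · intro v hv
    rw [inv_one, rone]
    exact ⟨hv, hv⟩
  · intro x y _ _ ihx ihy v hv
    rw [rmul, mul_inv_rev, rmul]
    exact ⟨(ihx _ (ihy v hv).1).1, (ihy _ (ihx v hv).2).2⟩
  · intro x _ ih v hv
    rw [inv_inv]
    exact ⟨(ih v hv).2, (ih v hv).1⟩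

/-- a finite set of representatives -/
theorem fin_cover (hDI : Stmt_DIM) (C : Set D.V) (hC : C ⊆ D.Rt) :
    ∃ A : Finset D.V, (∀ φ ∈ A, φ ∈ C) ∧ ∀ φ ∈ C, ∃ ψ ∈ A, 1 ≤ |D.B φ ψ| := by
  classical
  obtain ⟨n, hn⟩ := hDI D
  let P : Finset D.V → Prop := fun A =>
    (∀ φ ∈ A, φ ∈ C) ∧ (∀ φ ∈ A, ∀ ψ ∈ A, φ ≠ ψ → |D.B φ ψ| < 1)
  have hb : ∀ A, P A → A.card ≤ n := fun A hA => hn A (fun φ h => hC (hA.1 φ h)) hA.2
  obtain ⟨A, hA, hmax⟩ : ∃ A, P A ∧ ∀ A', P A' → A'.card ≤ A.card := by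
    have hf : {k | ∃ A, P A ∧ A.card = k}.Finite := by
      refine (Set.finite_Iic n).subset ?_
      rintro k ⟨A, hA, rfl⟩
      exact hb A hA
    have hne : {k | ∃ A, P A ∧ A.card = k}.Nonempty := by
      refine ⟨0, ∅, ⟨?_, ?_⟩, rfl⟩
      · intro φ h
        exact absurd h (Finset.notMem_empty _)
      · intro φ h
        exact absurd h (Finset.notMem_empty _)
    obtain ⟨k, ⟨A, hA, hk⟩, hmax⟩ := Set.exists_max_image _ id hf hne
    refine ⟨A, hA, fun A' hA' => ?_⟩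
    have := hmax _ ⟨A', hA', rfl⟩
    rw [hk]
    exact this
  refine ⟨A, hA.1, fun φ hφ => ?_⟩
  by_contra hcon
  have hcon' : ∀ ψ ∈ A, |D.B φ ψ| < 1 := by
    intro ψ hψ
    by_contra h1
    exact hcon ⟨ψ, hψ, not_lt.mp h1⟩
  have hφA : φ ∉ A := by
    intro h
    have h1 := hcon' φ h
    rw [H91.B_rt (hC hφ), abs_one] at h1
    exact lt_irrefl _ h1
  have h1 := hmax (insert φ A) ⟨?_, ?_⟩
  · rw [Finset.card_insert_of_notMem hφA] at h1
    omega
  · intro ψ hψ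
    rcases Finset.mem_insert.mp hψ with h2 | h2
    · rw [h2]; exact hφ
    · exact hA.1 ψ h2
  · intro ψ hψ χ hχ hne
    rcases Finset.mem_insert.mp hψ with h2 | h2 <;> rcases Finset.mem_insert.mp hχ with h3 | h3
    · exact absurd (h2.trans h3.symm) hne
    · rw [h2]; exact hcon' χ h3
    · rw [h3, H91.B_symm]; exact hcon' ψ h2
    · exact hA.2 ψ h2 χ h3 hne

theorem pow_fix {x : D.W} {v : D.V} (h : D.ρ x v = v) (n : ℕ) : D.ρ (x ^ n) v = v := by
  induction n with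
  | zero => rw [pow_zero, rone]
  | succ n ih => rw [pow_succ, rmul, h, ih]

/-- unipotent powers -/
theorem pow_mod {x : D.W} {v ε : D.V} {t : ℝ} (hε : D.ρ x ε = ε) (h : D.ρ x v = v + t • ε)
    (n : ℕ) : D.ρ (x ^ n) v = v + ((n : ℝ) * t) • ε := by
  induction n with
  | zero => rw [pow_zero, rone, Nat.cast_zero, zero_mul, zero_smul, add_zero]
  | succ n ih =>
    rw [pow_succ, rmul, h, map_add, map_smul, ih, pow_fix D hε]
    push_cast
    module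

/-- every root has finite order modulo `ε` -/
theorem root_mod {K : Set D.S} {ε : D.V} {T : Set D.V} (hT : T.Finite)
    (hcov : ∀ φ ∈ D.Rt, D.In K φ → ∃ ψ ∈ T, ∃ t : ℝ, φ = ψ + t • ε) {x : D.W}
    (hxε : D.ρ x ε = ε) (hx : ∀ v, D.In K v → D.In K (D.ρ x v)) {φ : D.V} (hφ : φ ∈ D.Rt)
    (hφK : D.In K φ) : ∃ n : ℕ, 0 < n ∧ ∃ t : ℝ, D.ρ (x ^ n) φ = φ + t • ε := by
  classical
  have hK : ∀ n : ℕ, D.In K (D.ρ (x ^ n) φ) := by
    intro n
    induction n with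
    | zero => rw [pow_zero, rone]; exact hφK
    | succ n ih => rw [pow_succ', rmul]; exact hx _ ih
  have h1 : ∀ n : ℕ, ∃ ψ : T, ∃ t : ℝ, D.ρ (x ^ n) φ = (ψ : D.V) + t • ε := by
    intro n
    obtain ⟨ψ, hψ, t, ht⟩ := hcov _ (H91.rt_ρ hφ (x ^ n)) (hK n)
    exact ⟨⟨ψ, hψ⟩, t, ht⟩
  choose f t ht using h1
  have : Finite T := hT
  have hlt : ∀ i j : ℕ, i < j → f i = f j → ∃ n : ℕ, 0 < n ∧ ∃ t : ℝ, D.ρ (x ^ n) φ = φ + t • ε := by
    intro i j hij hf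
    refine ⟨j - i, by omega, t j - t i, ?_⟩
    have e1 : D.ρ (x ^ i) (D.ρ (x ^ (j - i)) φ) = D.ρ (x ^ i) (φ + (t j - t i) • ε) := by
      rw [← rmul, ← pow_add, Nat.add_sub_cancel' hij.le, map_add, map_smul, pow_fix D hxε, ht j,
        ht i, hf]
      module
    exact H91.ρ_inj (x ^ i) e1
  obtain ⟨i, j, hij, hf⟩ := Finite.exists_ne_map_eq_of_infinite f
  rcases lt_or_gt_of_ne hij with h2 | h2
  · exact hlt i j h2 hf
  · exact hlt j i h2 hf.symm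

/-- some power of `x` is unipotent on `V_K` -/
theorem vec_mod {K : Set D.S} {ε : D.V} {T : Set D.V} (hT : T.Finite)
    (hcov : ∀ φ ∈ D.Rt, D.In K φ → ∃ ψ ∈ T, ∃ t : ℝ, φ = ψ + t • ε) {x : D.W}
    (hxε : D.ρ x ε = ε) (hx : ∀ v, D.In K v → D.In K (D.ρ x v)) :
    ∃ N : ℕ, 0 < N ∧ ∀ M : ℕ, N ∣ M → ∀ v, D.In K v → ∃ t : ℝ, D.ρ (x ^ M) v = v + t • ε := by
  classical
  have h1 : ∀ s : D.S, ∃ n : ℕ, 0 < n ∧ ∃ t : ℝ, s ∈ K → D.ρ (x ^ n) (D.e s) = D.e s + t • ε := by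
    intro s
    by_cases hs : s ∈ K
    · obtain ⟨n, hn, t, ht⟩ := root_mod D hT hcov hxε hx (H91.rt_e s) (by
        intro r hr
        exact H91.e_ne (by rintro rfl; exact hr hs))
      exact ⟨n, hn, t, fun _ => ht⟩
    · exact ⟨1, one_pos, 0, fun h => absurd h hs⟩
  choose n hn t ht using h1
  refine ⟨∏ s, n s, Finset.prod_pos fun s _ => hn s, fun M hM v hv => ?_⟩
  have h2 : ∀ s ∈ K, ∃ t' : ℝ, D.ρ (x ^ M) (D.e s) = D.e s + t' • ε := by
    intro s hs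
    obtain ⟨m, hm⟩ := (Finset.dvd_prod_of_mem n (Finset.mem_univ s)).trans hM
    refine ⟨(m : ℝ) * t s, ?_⟩
    rw [hm, pow_mul]
    exact pow_mod D (pow_fix D hxε _) (ht s hs) m
  have h3 : ∀ s : D.S, ∃ t' : ℝ, s ∈ K → D.ρ (x ^ M) (D.e s) = D.e s + t' • ε := by
    intro s
    by_cases hs : s ∈ K
    · obtain ⟨t', ht'⟩ := h2 s hs
      exact ⟨t', fun _ => ht'⟩
    · exact ⟨0, fun h => absurd h hs⟩
  choose t' ht' using h3
  refine ⟨∑ s, v s * t' s, ?_⟩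
  have e1 : D.ρ (x ^ M) v = ∑ s, v s • D.ρ (x ^ M) (D.e s) := by
    conv_lhs => rw [H91.eq_sum_e v]
    rw [map_sum]
    refine Finset.sum_congr rfl fun s _ => ?_
    rw [map_smul]
  have e2 : ∀ s, v s • D.ρ (x ^ M) (D.e s) = v s • D.e s + (v s * t' s) • ε := by
    intro s
    by_cases hs : s ∈ K
    · rw [ht' s hs, smul_add, smul_smul]
    · rw [hv s hs]
      simp
  rw [e1, Finset.sum_congr rfl fun s _ => e2 s, Finset.sum_add_distrib, ← H91.eq_sum_e,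
    Finset.sum_smul]

/-- the isotropic case -/
theorem iso_case (hR : Stmt_RNK) (hI : Stmt_IMC) (hC : Stmt_CSU)
    (hTY : Stmt_THY) (hPS : Stmt_PSD) (hDI : Stmt_DIM)
    {J K : Set D.S} {h g w : D.W} (hE : D.Ess J h) (hg : g ∈ D.par J) (hKJ : K ⊆ J)
    (hconn : D.Conn K) (hKo : ∀ s ∈ K, ∀ t ∈ J \ K, D.k s t = 0) (hcom : h * g = g * h)
    (hT1 : ∀ N : ℕ, 0 < N → ∀ γ ∈ D.Rt, D.Trn (h ^ N) γ → D.ρ g γ = γ)
    {α β : D.V} (hα : α ∈ D.Rt) (hKα : D.In K α) (hKβ : D.In K β)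
    (htα : D.Trn h α) (htβ : D.Trn g β)
    {u : D.V} (huK : u ∈ D.Kc) (huu : D.B u u = 0) (hun : u ≠ 0) (hcu : D.Conn {s | u s ≠ 0})
    (h0 : D.In {s | u s ≠ 0} (D.ρ w α)) (h1 : D.In {s | u s ≠ 0} (D.ρ w (D.ρ h α)))
    (h2 : D.In {s | u s ≠ 0} (D.ρ w (D.ρ (h ^ 2) α)))
    (hB1 : 1 ≤ D.B α (D.ρ h α)) : False := by
  classical
  obtain ⟨-, hP2, -, hP4⟩ := hPS D u huK huu hcu hun
  set J' : Set D.S := {s | u s ≠ 0} with hJ'
  set ε : D.V := D.ρ w⁻¹ u with hε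
  have hwε : D.ρ w ε = u := rinv' D w u
  have hεn : ε ≠ 0 := by
    intro hc
    apply hun
    rw [← hwε, hc, map_zero]
  -- the two differences
  have hone : ∀ x ∈ D.Rt, ∀ y ∈ D.Rt, D.In J' (D.ρ w x) → D.In J' (D.ρ w y) → 1 ≤ D.B x y →
      ∃ t : ℝ, y = x + t • ε := by
    intro x hx y hy hx1 hy1 hxy
    obtain ⟨p1, p2, -⟩ := hP4 _ (H91.rt_ρ hx w) _ (H91.rt_ρ hy w) hx1 hy1
    rw [H91.B_ρ] at p1 p2
    obtain ⟨t, ht⟩ := p2 (le_antisymm (abs_le.mp p1).2 hxy)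
    refine ⟨t, H91.ρ_inj w ?_⟩
    rw [map_add, map_smul, hwε]
    exact ht
  obtain ⟨c0, hc0⟩ := hone α hα _ (H91.rt_ρ hα h) h0 h1 hB1
  obtain ⟨c1, hc1⟩ := hone _ (H91.rt_ρ hα h) _ (H91.rt_ρ hα (h ^ 2)) h1 h2 (by
    rw [pow_two, rmul, H91.B_ρ]
    exact hB1)
  have hc0n : c0 ≠ 0 := by
    intro hc
    rw [hc, zero_smul, add_zero] at hc0
    apply (htα 1 one_pos).2
    rw [pow_one]
    exact hc0
  have hhε : ∃ r : ℝ, D.ρ h ε = r • ε := by
    refine ⟨c1 / c0, ?_⟩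
    have e1 : D.ρ h (D.ρ h α) = D.ρ h α + c0 • D.ρ h ε := by
      conv_lhs => rw [hc0]
      rw [map_add, map_smul]
    rw [pow_two, rmul, e1] at hc1
    have e2 : c0 • D.ρ h ε = c1 • ε := add_left_cancel hc1
    rw [div_eq_inv_mul, mul_smul, ← e2, smul_smul, inv_mul_cancel₀ hc0n, one_smul]
  obtain ⟨r, hr⟩ := hhε
  have hwh : D.ρ (w * h * w⁻¹) u = r • u := by
    rw [rmul, rmul]
    rw [← hε, hr, map_smul, hwε]
  have hupos : ∃ s, 0 < u s := by
    by_contra hc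
    apply hun
    funext s
    by_contra hs
    exact hc ⟨s, lt_of_le_of_ne (huK.1 s) (Ne.symm hs)⟩
  have hr1 : 1 ≤ r := by
    obtain ⟨s, hs⟩ := hupos
    have h3 := (hI D).2.1 u huK (w * h * w⁻¹) s
    rw [hwh, Pi.smul_apply, smul_eq_mul] at h3
    by_contra hc
    have : r * u s < 1 * u s := mul_lt_mul_of_pos_right (not_le.mp hc) hs
    linarith
  have hru : r • u ∈ D.Kc := by
    refine ⟨fun s => ?_, fun s => ?_⟩
    · rw [Pi.smul_apply, smul_eq_mul]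
      exact mul_nonneg (by linarith) (huK.1 s)
    · rw [H91.B_smul_left]
      have := huK.2 s
      nlinarith
  obtain ⟨h3, h4⟩ := (hI D).2.2 u huK (w * h * w⁻¹) (by rw [hwh]; exact hru)
  have hhε : D.ρ h ε = ε := by
    apply H91.ρ_inj w
    rw [hwε]
    rw [rmul, rmul] at h3
    exact h3
  -- the parabolic closure
  have hhU : h ∈ D.cp w⁻¹ (J' ∪ D.perp J') := by
    rw [mem_cp, inv_inv]
    have hle : D.par {s | D.B u (D.e s) = 0} ≤ D.par (J' ∪ D.perp J') := by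
      refine Subgroup.closure_mono (Set.image_mono ?_)
      intro s hs
      by_cases hus : u s = 0
      · exact Or.inr (hP2 s hus hs)
      · exact Or.inl hus
    exact hle h4
  have hJU : D.par J ≤ D.cp w⁻¹ (J' ∪ D.perp J') := by
    refine hE.2 1 one_pos _ _ ?_
    rwa [pow_one]
  have hJU' : D.cp 1 J ≤ D.cp w⁻¹ (J' ∪ D.perp J') := by
    intro x hx
    apply hJU
    rw [mem_cp] at hx
    simpa using hx
  have heIn : ∀ (I : Set D.S), ∀ s ∈ I, D.In I (D.e s) := by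
    intro I s hs t ht
    exact H91.e_ne (by rintro rfl; exact ht hs)
  have hkp : ∀ s ∈ J', ∀ t ∈ D.perp J', D.k s t = 0 := fun s hs t ht => by
    rw [D.symm]; exact ht s hs
  have hsplit : ∀ s ∈ K, D.In J' (D.ρ w (D.e s)) ∨ D.In (D.perp J') (D.ρ w (D.e s)) := by
    intro s hs
    refine hC D J' (D.perp J') hkp _ (H91.rt_ρ (H91.rt_e s) w) ?_
    have := (hR D _ _ _ _ hJU').2.2 _ (heIn J s (hKJ hs))
    rwa [mul_one, inv_inv] at this
  have hcomb : ∀ (I : Set D.S) (v : D.V), D.In K v → (∀ s ∈ K, D.In I (D.ρ w (D.e s))) →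
      D.In I (D.ρ w v) := by
    intro I v hv h1 t ht
    rw [H91.eq_sum_e v, map_sum, Finset.sum_apply]
    refine Finset.sum_eq_zero fun s _ => ?_
    rw [map_smul, Pi.smul_apply]
    by_cases hs : s ∈ K
    · rw [h1 s hs t ht, smul_zero]
    · rw [hv s hs, zero_smul]
  have hKJ' : ∀ s ∈ K, D.In J' (D.ρ w (D.e s)) := by
    by_cases hne : {s | s ∈ K ∧ D.In J' (D.ρ w (D.e s))}.Nonempty
    · have hall := hconn {s | s ∈ K ∧ D.In J' (D.ρ w (D.e s))} (fun s hs => hs.1) hne (by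
        rintro s ⟨hs1, hs2⟩ t ⟨ht1, ht2⟩
        have h3 : D.In (D.perp J') (D.ρ w (D.e t)) := by
          rcases hsplit t ht1 with h4 | h4
          · exact absurd ⟨ht1, h4⟩ ht2
          · exact h4
        have h4 := orth D hkp hs2 h3
        rw [H91.B_ρ, H91.B_e] at h4
        exact h4)
      intro s hs
      have : s ∈ {s | s ∈ K ∧ D.In J' (D.ρ w (D.e s))} := by rw [hall]; exact hs
      exact this.2
    · exfalso
      have h5 := hcomb (D.perp J') α hKα (fun s hs => by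
        rcases hsplit s hs with h4 | h4
        · exact absurd ⟨s, hs, h4⟩ hne
        · exact h4)
      have h6 := orth D hkp h0 h5
      rw [H91.B_rt (H91.rt_ρ hα w)] at h6
      exact one_ne_zero h6
  have hKw : ∀ v, D.In K v → D.In J' (D.ρ w v) := fun v hv => hcomb J' v hv hKJ'
  -- `g ε = ε`
  have hgα : D.ρ g α = α := hT1 1 one_pos α hα (by rwa [pow_one])
  have hghα : D.ρ g (D.ρ h α) = D.ρ h α := by
    rw [← rmul, ← hcom, rmul, hgα]
  have hgε : D.ρ g ε = ε := by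
    have e1 : c0 • D.ρ g ε = c0 • ε := by
      have e2 := hghα
      rw [hc0, map_add, map_smul, hgα] at e2
      exact add_left_cancel e2
    have e3 := congrArg (fun v => c0⁻¹ • v) e1
    simp only [smul_smul, inv_mul_cancel₀ hc0n, one_smul] at e3
    exact e3
  -- the classes of roots
  obtain ⟨A, hA1, hA2⟩ := fin_cover D hDI {φ | φ ∈ D.Rt ∧ D.In K φ} (fun φ hφ => hφ.1)
  have hTf : ((A : Set D.V) ∪ (fun v => -v) '' (A : Set D.V)).Finite :=
    A.finite_toSet.union (A.finite_toSet.image _)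
  have hcov : ∀ φ ∈ D.Rt, D.In K φ → ∃ ψ ∈ ((A : Set D.V) ∪ (fun v => -v) '' (A : Set D.V)),
      ∃ t : ℝ, φ = ψ + t • ε := by
    intro φ hφ hφK
    obtain ⟨ψ, hψ, hψB⟩ := hA2 φ ⟨hφ, hφK⟩
    have hψ1 := hA1 ψ hψ
    obtain ⟨p1, -, -⟩ := hP4 _ (H91.rt_ρ hψ1.1 w) _ (H91.rt_ρ hφ w) (hKw _ hψ1.2) (hKw _ hφK)
    rw [H91.B_ρ, H91.B_symm] at p1
    have habs : |D.B φ ψ| = 1 := le_antisymm p1 hψB
    rcases (abs_eq (zero_le_one' ℝ)).mp habs with h5 | h5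
    · obtain ⟨t, ht⟩ := hone ψ hψ1.1 φ hφ (hKw _ hψ1.2) (hKw _ hφK) (by rw [H91.B_symm, h5])
      exact ⟨ψ, Or.inl hψ, t, ht⟩
    · obtain ⟨t, ht⟩ := hone (-ψ) (H91.rt_neg hψ1.1) φ hφ (by
        rw [map_neg]; exact In_neg D (hKw _ hψ1.2)) (hKw _ hφK) (by
        rw [H91.B_neg_left, H91.B_symm, h5, neg_neg])
      exact ⟨-ψ, Or.inr ⟨ψ, hψ, rfl⟩, t, ht⟩
  obtain ⟨N1, hN1, hM1⟩ := vec_mod D hTf hcov hhε (fun v hv => (par_pres D hKo hE.1 v hv).1)
  obtain ⟨N2, hN2, hM2⟩ := vec_mod D hTf hcov hgε (fun v hv => (par_pres D hKo hg v hv).1)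
  set N : ℕ := N1 * N2 with hN
  have hNpos : 0 < N := Nat.mul_pos hN1 hN2
  have hH := hM1 N (Dvd.intro _ rfl)
  have hG := hM2 N (Dvd.intro_left _ rfl)
  -- linear functionals
  obtain ⟨s0, hs0⟩ : ∃ s0, ε s0 ≠ 0 := by
    by_contra hc
    apply hεn
    funext s
    by_contra hs
    exact hc ⟨s, hs⟩
  let π : D.V →ₗ[ℝ] ℝ := (ε s0)⁻¹ • LinearMap.proj s0
  have hπ : π ε = 1 := by
    show (ε s0)⁻¹ * ε s0 = 1
    exact inv_mul_cancel₀ hs0
  let χ1 : D.V →ₗ[ℝ] ℝ := π ∘ₗ (D.ρ (h ^ N) - LinearMap.id)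
  let χ2 : D.V →ₗ[ℝ] ℝ := π ∘ₗ (D.ρ (g ^ N) - LinearMap.id)
  have hχ1 : ∀ v, D.In K v → D.ρ (h ^ N) v = v + χ1 v • ε := by
    intro v hv
    obtain ⟨t, ht⟩ := hH v hv
    have e1 : χ1 v = t := by
      show π (D.ρ (h ^ N) v - v) = t
      rw [ht, add_sub_cancel_left, map_smul, hπ, smul_eq_mul, mul_one]
    rw [e1]
    exact ht
  have hχ2 : ∀ v, D.In K v → D.ρ (g ^ N) v = v + χ2 v • ε := by
    intro v hv
    obtain ⟨t, ht⟩ := hG v hv
    have e1 : χ2 v = t := by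
      show π (D.ρ (g ^ N) v - v) = t
      rw [ht, add_sub_cancel_left, map_smul, hπ, smul_eq_mul, mul_one]
    rw [e1]
    exact ht
  -- positivity of the translates of `ε`
  have hεpos : ∀ (v : D.W) s, 0 ≤ D.ρ v ε s := by
    intro v s
    have h5 := (hI D).2.1 u huK (v * w⁻¹) s
    rw [rmul] at h5
    exact (huK.1 s).trans h5
  have htr : ∀ γ ∈ D.Rt, D.In K γ → 0 < χ1 γ → D.ρ g γ = γ := by
    intro γ hγ hγK hpos
    refine hT1 N hNpos γ hγ ?_
    intro n hn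
    have e1 := pow_mod D (pow_fix D hhε N) (hχ1 γ hγK) n
    have hpos' : 0 < (n : ℝ) * χ1 γ := mul_pos (Nat.cast_pos.mpr hn) hpos
    refine ⟨?_, ?_⟩
    · intro v hv
      refine ⟨H91.rt_ρ (H91.rt_ρ hγ _) _, fun s => ?_⟩
      rw [e1, map_add, map_smul, Pi.add_apply, Pi.smul_apply, smul_eq_mul]
      exact add_nonneg (hv.2 s) (mul_nonneg hpos'.le (hεpos _ s))
    · rw [e1]
      intro hc
      have h6 : ((n : ℝ) * χ1 γ) • ε = 0 := by
        have := congrArg (fun v => v - γ) hc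
        simpa using this
      rcases smul_eq_zero.mp h6 with h7 | h7
      · exact hpos'.ne' h7
      · exact hεn h7
  have hzero : ∀ γ ∈ D.Rt, D.In K γ → χ1 γ = 0 ∨ χ2 γ = 0 := by
    intro γ hγ hγK
    by_cases hz : χ1 γ = 0
    · exact Or.inl hz
    right
    have hgγ : D.ρ g γ = γ := by
      rcases lt_or_gt_of_ne hz with h5 | h5
      · have h6 := htr (-γ) (H91.rt_neg hγ) (In_neg D hγK) (by rw [map_neg]; linarith)
        rw [map_neg] at h6
        exact neg_injective h6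
      · exact htr γ hγ hγK h5
    show π (D.ρ (g ^ N) γ - γ) = 0
    rw [pow_fix D hgγ, sub_self, map_zero]
  rcases hTY D K hconn χ1 χ2 hzero with h5 | h5
  · have h6 := hχ1 α hKα
    rw [h5 α hKα, zero_smul, add_zero] at h6
    exact (htα N hNpos).2 h6
  · have h6 := hχ2 β hKβ
    rw [h5 β hKβ, zero_smul, add_zero] at h6
    exact (htβ N hNpos).2 h6

end F3CYp
end Pool.CS
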